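import Pool.Agent.Q11.ST.Desc3

/-!
# The defect of the Sato-Tate law does not decrease in general extensions

`K` is a number field and `A` an abelian variety over `K`; `G = ST(A)` is its Sato-Tate group, a compact
group with Haar probability measure `μ`, and `x_v ∈ G` is an element of the class of the prime `v` of `K`
(any element at the finitely many other primes).  For a finite extension `F` of `K` and a prime `w` of `F`
of residue degree one over the prime `v` of `K` the class of `w` for `A_F` is in the class of `x_v`; the
primes of `F` of residue degree one over `K` have density one.  So the classes for `A_F` are a base change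
of the `x_v` in the sense of the definition `BaseChange` below.  If `G` is connected, or if `F` is
disjoint from the finite Galois extension of `K` given by the component group of `G`, then
`ST(A_F) = ST(A)`, and the Sato-Tate law for `A_F` says that the classes are equidistributed for `μ`.

The theorem only uses the base change.  No L-function is used and nothing is assumed about the `x_v`.
-/

set_option autoImplicit false

namespace Pool.Agent.Results.MP_c481b3_nt.DefectUnderExtension

open NumberField IsDedekindDomain Filter Topology MeasureTheory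
open scoped TensorProduct

section

variable {F : Type} [Field F] [NumberField F]

/-- The average of `φ` over the primes of `F` of norm at most `N`. -/
noncomputable def avg (φ : HeightOneSpectrum (𝓞 F) → ℝ) (N : ℕ) : ℝ :=
  (∑ᶠ w : {w : HeightOneSpectrum (𝓞 F) // Ideal.absNorm w.asIdeal ≤ N}, φ w.1) /
    (Nat.card {w : HeightOneSpectrum (𝓞 F) // Ideal.absNorm w.asIdeal ≤ N} : ℝ)

/-- The classes of the `y w` are equidistributed for `μ`. -/
def Equidistributed {G : Type} [Group G] [TopologicalSpace G] [MeasurableSpace G]
    (y : HeightOneSpectrum (𝓞 F) → G) (μ : Measure G) : Prop :=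
  ∀ f : G → ℝ, Continuous f → (∀ g h, f (h * g * h⁻¹) = f g) →
    Tendsto (avg fun w => f (y w)) atTop (𝓝 (∫ g, f g ∂μ))

/-- The defect of the law over `F` for the function `f`: the upper limit, for `N → ∞`, of the distance
between the average of `f` over the primes of norm at most `N` and `∫ f`.  The `y w` are equidistributed
if and only if it is zero for all continuous class functions `f`. -/
noncomputable def defect {G : Type} [MeasurableSpace G] (μ : Measure G)
    (y : HeightOneSpectrum (𝓞 F) → G) (f : G → ℝ) : ℝ :=
  limsup (fun N => |avg (fun w => f (y w)) N - ∫ g, f g ∂μ|) atTop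

/-- `y w` is a conjugate of `x v` for all but finitely many primes `w` of `F` of residue degree one over
the prime `v` of `K` below `w`. -/
def BaseChange {K : Type} [Field K] [NumberField K] [Algebra K F] {G : Type} [Group G]
    (x : HeightOneSpectrum (𝓞 K) → G) (y : HeightOneSpectrum (𝓞 F) → G) : Prop :=
  ∃ S : Finset (HeightOneSpectrum (𝓞 F)), ∀ w, w ∉ S → ∀ v : HeightOneSpectrum (𝓞 K),
    w.asIdeal.comap (algebraMap (𝓞 K) (𝓞 F)) = v.asIdeal →
    Ideal.absNorm w.asIdeal = Ideal.absNorm v.asIdeal → ∃ h : G, y w = h * x v * h⁻¹

end

/-- The law holds over `F`: the base changes of `x` to the extension `F` of `K` are equidistributed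
for `μ`. -/
def HoldsOver {K : Type} [Field K] [NumberField K] {G : Type} [Group G] [TopologicalSpace G]
    [MeasurableSpace G] (x : HeightOneSpectrum (𝓞 K) → G) (μ : Measure G) (F : Type) [Field F]
    [NumberField F] [Algebra K F] : Prop :=
  ∀ y : HeightOneSpectrum (𝓞 F) → G, BaseChange x y → Equidistributed y μ

/-- The number of fields whose product is `F ⊗_K F`, the rank of the action of the absolute Galois group
of `K` on the embeddings of `F` over `K`.  It is at most `[F : K]`, and equal to `2` if all permutations
of the embeddings occur and `F ≠ K`. -/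
noncomputable def rank (K F : Type) [Field K] [Field F] [Algebra K F] : ℕ :=
  Nat.card (MaximalSpectrum (F ⊗[K] F))

section Bridge

/-- a base change exists -/
theorem exists_bc {K : Type} [Field K] [NumberField K] {G : Type} [Group G]
    {x : HeightOneSpectrum (𝓞 K) → G} (F : Type) [Field F] [NumberField F] [Algebra K F] :
    ∃ y : HeightOneSpectrum (𝓞 F) → G, BaseChange x y := by
  classical
  refine ⟨fun w => if h : ∃ v : HeightOneSpectrum (𝓞 K),
    w.asIdeal.comap (algebraMap (𝓞 K) (𝓞 F)) = v.asIdeal then x h.choose else 1, ∅,
    fun w _ v hv _ => ⟨1, ?_⟩⟩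
  have hw : ∃ v : HeightOneSpectrum (𝓞 K), w.asIdeal.comap (algebraMap (𝓞 K) (𝓞 F)) =
    v.asIdeal := ⟨v, hv⟩
  simp only
  rw [dif_pos hw]
  have : hw.choose = v := HeightOneSpectrum.ext (hw.choose_spec.symm.trans hv)
  rw [this]
  group

variable {K : Type} [Field K] [NumberField K]
variable {G : Type} [Group G] [TopologicalSpace G] [CompactSpace G]
  [MeasurableSpace G] [OpensMeasurableSpace G] {μ : Measure G} [IsProbabilityMeasure μ]
  {x : HeightOneSpectrum (𝓞 K) → G}

/-- one base change is as good as another -/
theorem holds_iff (F : Type) [Field F] [NumberField F] [Algebra K F] :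
    HoldsOver x μ F ↔ Pool.Agent.Q11.ST.HoldsOver x μ F := by
  constructor
  · intro h
    obtain ⟨y, hy⟩ := exists_bc (x := x) F
    exact ⟨y, hy, h y hy⟩
  · rintro ⟨y, hy, hy'⟩ z hz
    refine Pool.Agent.Q11.ST.descent (ι := Unit) (F := fun _ => F) (F₀ := F) (y := fun _ => y)
      (fun _ => hy) (fun _ => hy') hz fun ε hε => ⟨{()}, fun _ => 1, ?_⟩
    unfold Pool.Agent.Q11.ST.dist2
    rw [Finset.sum_singleton, Finset.sum_singleton, Finset.sum_singleton]
    linarith

end Bridge

/-- **The defect of the Sato-Tate law over a number field and over its extensions.**  Let `K` be a number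
field, `G` a compact group with a probability measure `μ` and `x_v ∈ G` for the primes `v` of `K`.  For
every continuous real class function `f` on `G`, every `c` and every `ε > 0` there is a finite Galois
extension `M` of `K` such that `defect_K(f) ≤ defect_F(f) + ε` for all finite extensions `F` of `K` with
`F ∩ M = K` and rank at most `c`, in particular for those of degree at most `c` and for those with
symmetric Galois groups, of any degree, if `c ≥ 2`.

Consequently, if the law does not hold over `K`, then for every `c` there is a finite Galois extension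
`M` of `K` such that it does not hold over any finite extension `F` of `K` with `F ∩ M = K` and rank at
most `c`, and for every prime number `p` it holds over at most finitely many extensions of `K` of degree
`p` in an algebraic closure of `K`. -/
theorem result (K : Type) [Field K] [NumberField K]
    (G : Type) [Group G] [TopologicalSpace G] [CompactSpace G] [MeasurableSpace G]
    [BorelSpace G] (μ : Measure G) [IsProbabilityMeasure μ]
    (x : HeightOneSpectrum (𝓞 K) → G) :
    (∀ f : G → ℝ, Continuous f → (∀ g h, f (h * g * h⁻¹) = f g) → ∀ (c : ℕ) (ε : ℝ), 0 < ε →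
      ∃ M : IntermediateField K (AlgebraicClosure K), FiniteDimensional K M ∧ IsGalois K M ∧
      ∀ (F : IntermediateField K (AlgebraicClosure K)) [NumberField F], F ⊓ M = ⊥ →
        rank K F ≤ c ∨ Module.finrank K F ≤ c →
        ∀ y : HeightOneSpectrum (𝓞 F) → G, BaseChange x y →
          defect μ x f ≤ defect μ y f + ε) ∧
    (¬ Equidistributed x μ →
      (∀ c : ℕ, ∃ M : IntermediateField K (AlgebraicClosure K),
        FiniteDimensional K M ∧ IsGalois K M ∧
        ∀ (F : IntermediateField K (AlgebraicClosure K)) [NumberField F], F ⊓ M = ⊥ →
          rank K F ≤ c ∨ Module.finrank K F ≤ c → ¬ HoldsOver x μ F) ∧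
      ∀ p : ℕ, p.Prime → {F : IntermediateField K (AlgebraicClosure K) |
        Module.finrank K F = p ∧ ∃ _ : NumberField F, HoldsOver x μ F}.Finite) := by
  have hrk : ∀ (c : ℕ) (F : IntermediateField K (AlgebraicClosure K)) [NumberField F],
      rank K F ≤ c ∨ Module.finrank K F ≤ c → Pool.Agent.Q11.ST.numFields K F F ≤ c := by
    intro c F _ hc
    rcases hc with hc | hc
    · exact hc
    · have h4 := Pool.Agent.Q11.ST.rank_le (K := K) (F := F)
      have h5 : (Module.finrank K F : ℝ) ≤ c := by exact_mod_cast hc
      exact_mod_cast h4.trans h5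
  refine ⟨?_, fun hx => ⟨fun c => ?_, fun p hp => ?_⟩⟩
  · intro f hf hcl c ε hε
    obtain ⟨M, h1, h2, h3⟩ := Pool.Agent.Q11.ST.defect_prop (μ := μ) (x := x) hf hcl c hε
    exact ⟨M, h1, h2, fun F _ hF hc y hy => h3 F hF (hrk c F hc) y hy⟩
  · obtain ⟨M, h1, h2, h3⟩ := Pool.Agent.Q11.ST.propagation hx c
    refine ⟨M, h1, h2, fun F _ hF hc => ?_⟩
    rw [holds_iff]
    exact h3 F (hrk c F hc) hF
  · by_contra hinf
    refine hx (Pool.Agent.Q11.ST.prime_degree hp (Set.Infinite.mono ?_ hinf))
    rintro F ⟨hF, hnf, hF'⟩
    exact ⟨hF, hnf, (holds_iff F).1 hF'⟩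

end Pool.Agent.Results.MP_c481b3_nt.DefectUnderExtension
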