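import Pool.Agent.W529.ST.LimU
import Pool.Agent.W529.ST.Lim
import Pool.Agent.W529.ST.Wrap

/-!
# One extension of bounded degree governs the limit measures of all twists of all base changes

`K` is a number field and `A` an abelian variety over `K`.  For a finite extension `F` of `K` and `d ∈ F`
nonzero let `A_F^d` be the twist of `A_F` by the quadratic character of `F(√d)/F` (and `-1 ∈ Aut A`).  `X`
is the space of conjugacy classes of a compact group with a central element `-1`, for instance of
`USp(2g)` or of `ST(A) · {±1}`, with a metric for which the involution `σ`, multiplication by `-1`, is an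
isometry; `x_v ∈ X` is the class of the prime `v` of `K` for `A`.  For a prime `w` of `F` of residue degree
one over `v` the class of `w` for `A_F^d` is `x_v` if `d` is a square modulo `w` and `σ(x_v)` if not; the
primes of residue degree one over `K` have density one.  So the classes `c F d w` of the `A_F^d` are a
family in the sense of `TwistedBaseChanges` below.

The Sato-Tate law for `A_F^d` says that the averages of `f(c F d w)` over the primes `w` of norm at most
`N` converge to the integral of `f` for the Haar measure of its Sato-Tate group.  We prove that the limit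
measures, for subsequences of the scales `N`, are governed by a finite extension of `K` whose degree is
bounded in terms of `X`, of the precision `1/k` and of a bound `n` for the degrees `[F : K]` only.

The theorem uses no L-function, and nothing is assumed about the `x_v`.
-/

set_option autoImplicit false

namespace Pool.Agent.Results.MP_c481b3_nt.GoverningExtension

open NumberField IsDedekindDomain Filter Topology MeasureTheory

/-- The average of `φ` over the primes of `F` of norm at most `N`. -/
noncomputable def avg (F : Type) [Field F] [NumberField F] (φ : HeightOneSpectrum (𝓞 F) → ℝ)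
    (N : ℕ) : ℝ :=
  (∑ᶠ w : {w : HeightOneSpectrum (𝓞 F) // Ideal.absNorm w.asIdeal ≤ N}, φ w.1) /
    (Nat.card {w : HeightOneSpectrum (𝓞 F) // Ideal.absNorm w.asIdeal ≤ N} : ℝ)

/-- Test functions: `1`-Lipschitz functions with values in `[-1, 1]`. -/
def Test {X : Type} [MetricSpace X] (f : X → ℝ) : Prop := LipschitzWith 1 f ∧ ∀ x, |f x| ≤ 1

/-- Families of classes: `c F d w ∈ X` for the number fields `F` between `K` and its algebraic closure,
`d ∈ 𝓞_F` and the primes `w` of `F`. -/
abbrev Classes (K : Type) [Field K] (X : Type) : Type :=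
  ∀ (F : IntermediateField K (AlgebraicClosure K)) [NumberField F],
    𝓞 F → HeightOneSpectrum (𝓞 F) → X

/-- Families of probability measures: `μ F d` for the number fields `F` between `K` and its algebraic
closure and `d ∈ 𝓞_F`. -/
abbrev Laws (K : Type) [Field K] (X : Type) [MeasurableSpace X] : Type :=
  ∀ (F : IntermediateField K (AlgebraicClosure K)) [NumberField F], 𝓞 F → ProbabilityMeasure X

/-- The distance of two probability measures is less than `1/k`, in the dual bounded Lipschitz distance. -/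
def Near {X : Type} [MetricSpace X] [MeasurableSpace X] (k : ℕ) (P Q : ProbabilityMeasure X) : Prop :=
  ∀ f : X → ℝ, Test f → |∫ y, f y ∂(P : Measure X) - ∫ y, f y ∂(Q : Measure X)| < 1 / k

section

variable {K : Type} [Field K] [NumberField K] {X : Type}

/-- The `c F d w` are the classes of the twists by `d` of the base changes to `F` of `x`: if `d ≠ 0`, then
for all but finitely many primes `w` of `F` of residue degree one over the prime `v` of `K` below `w`,
`c F d w` is `x v` if `d` is a square modulo `w` and `σ (x v)` if not. -/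
def TwistedBaseChanges (σ : X → X) (x : HeightOneSpectrum (𝓞 K) → X) (c : Classes K X) : Prop :=
  ∀ (F : IntermediateField K (AlgebraicClosure K)) [NumberField F] (d : 𝓞 F), d ≠ 0 →
    ∃ S : Finset (HeightOneSpectrum (𝓞 F)), ∀ w, w ∉ S → ∀ v : HeightOneSpectrum (𝓞 K),
      w.asIdeal.comap (algebraMap (𝓞 K) (𝓞 F)) = v.asIdeal →
      Ideal.absNorm w.asIdeal = Ideal.absNorm v.asIdeal →
      (IsSquare (Ideal.Quotient.mk w.asIdeal d) → c F d w = x v) ∧
      (¬ IsSquare (Ideal.Quotient.mk w.asIdeal d) → c F d w = σ (x v))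

omit [NumberField K] in
/-- The element `d` of `F` is a square in the field `E`. -/
def SquareIn (E : IntermediateField K (AlgebraicClosure K))
    {F : IntermediateField K (AlgebraicClosure K)} (d : 𝓞 F) : Prop :=
  ∃ y ∈ E, y ^ 2 = ((d : F) : AlgebraicClosure K)

/-- For `d ∈ F` and `e ∈ F ∩ M`: either `d e` is a square in `F`, so that the twist by `d` over `F` is the
base change of the twist by `e`, and `e` is a square in `M`; or `d` is not a square in `F M` and `e` is not
a square in `M`. -/
def Related (M : IntermediateField K (AlgebraicClosure K))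
    {F G : IntermediateField K (AlgebraicClosure K)} (d : 𝓞 F) (e : 𝓞 G) : Prop :=
  ((∃ u ∈ F, u ^ 2 = ((d : F) : AlgebraicClosure K) * ((e : G) : AlgebraicClosure K)) ∧
      SquareIn M e) ∨
    (¬ SquareIn (F ⊔ M) d ∧ ¬ SquareIn M e)

/-- `μ F d` is the limit measure of the classes `c F d` along the set `S` of scales: for every continuous
function `f` the average of `f (c F d w)` over the primes `w` of norm at most `N` tends to the integral of
`f`, as `N → ∞` in `S`.  This is demanded for all number fields `F ⊇ K` and all `d ≠ 0`. -/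
def IsLimit [TopologicalSpace X] [MeasurableSpace X] (c : Classes K X) (S : Set ℕ)
    (μ : Laws K X) : Prop :=
  ∀ (F : IntermediateField K (AlgebraicClosure K)) [NumberField F] (d : 𝓞 F), d ≠ 0 →
    ∀ f : X → ℝ, Continuous f → Tendsto (avg F fun w => f (c F d w)) (atTop ⊓ 𝓟 S)
      (𝓝 (∫ y, f y ∂(μ F d : Measure X)))

/-- If `[F : K] ≤ n` and `d` is not a square in `F M`, then `μ F d` is at distance less than `1/k` from
the symmetrisation of `μ F 1`, in the dual bounded Lipschitz distance. -/
def SymmetricOutside [MetricSpace X] [MeasurableSpace X] (σ : X → X) (μ : Laws K X) (n k : ℕ)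
    (M : IntermediateField K (AlgebraicClosure K)) : Prop :=
  ∀ (F : IntermediateField K (AlgebraicClosure K)) [NumberField F] (d : 𝓞 F),
    Module.finrank K F ≤ n → d ≠ 0 → ¬ SquareIn (F ⊔ M) d → ∀ f : X → ℝ, Test f →
      |∫ y, f y ∂(μ F d : Measure X) - ∫ y, (f y + f (σ y)) / 2 ∂(μ F 1 : Measure X)| < 1 / k

/-- There are at most `2 ^ (2 [M : K] + 2)` pairs `(G, e)`, `G ⊆ M`, such that for all `F` with
`[F : K] ≤ n` and all `d ≠ 0` one of them has `G = F ∩ M`, is related to `d` and has `μ G e` at distance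
less than `1/k` from `μ F d`. -/
def FewLaws [MetricSpace X] [MeasurableSpace X] (μ : Laws K X) (n k : ℕ)
    (M : IntermediateField K (AlgebraicClosure K)) : Prop :=
  ∃ (l : ℕ) (G : Fin l → IntermediateField K (AlgebraicClosure K)) (_ : ∀ a, NumberField (G a))
    (e : ∀ a, 𝓞 (G a)), l ≤ 2 ^ (2 * (Module.finrank K M + 1)) ∧ (∀ a, G a ≤ M ∧ e a ≠ 0) ∧
    ∀ (F : IntermediateField K (AlgebraicClosure K)) [NumberField F] (d : 𝓞 F),
      Module.finrank K F ≤ n → d ≠ 0 →
        ∃ a, G a = F ⊓ M ∧ Related M d (e a) ∧ Near k (μ F d) (μ (G a) (e a))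

/-- The finite Galois extension `M ⊇ L` of `K` has degree at most `b * [L : K]` and governs the laws
`μ F d`, `[F : K] ≤ n`, up to `1/k`. -/
def Governs [MetricSpace X] [MeasurableSpace X] (σ : X → X) (μ : Laws K X) (n k b : ℕ)
    (L M : IntermediateField K (AlgebraicClosure K)) : Prop :=
  L ≤ M ∧ FiniteDimensional K M ∧ IsGalois K M ∧ Module.finrank K M ≤ b * Module.finrank K L ∧
    SymmetricOutside σ μ n k M ∧ FewLaws μ n k M

end

section Bridge

open Pool.Agent.H341R2 Pool.Agent.W529.ST Pool.Agent.W353.TP Pool.Agent.W353.AB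
open Pool.Agent.H921R2.TatePole (kerPrime)

variable {K : Type} [Field K] [NumberField K]

omit [NumberField K] in
theorem related_iff (M : IntermediateField K (AlgebraicClosure K))
    {F G : IntermediateField K (AlgebraicClosure K)} (d : 𝓞 F) (e : 𝓞 G) :
    Related M d e ↔ Pool.Agent.W529.ST.Related M d e := by
  unfold Related Pool.Agent.W529.ST.Related SquareIn Pool.Agent.W529.ST.inj
  push Not
  exact Iff.rfl

open Classical in
/-- the family with the exact formula at all the primes of residue degree one -/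
noncomputable def fix {X : Type} (σ : X → X) (x : HeightOneSpectrum (𝓞 K) → X)
    (c : ∀ (F : IntermediateField K (AlgebraicClosure K)) [NumberField F],
      𝓞 F → HeightOneSpectrum (𝓞 F) → X)
    (F : IntermediateField K (AlgebraicClosure K)) [NumberField F] (d : 𝓞 F)
    (w : HeightOneSpectrum (𝓞 F)) : X :=
  if h : ∃ v : HeightOneSpectrum (𝓞 K), w.asIdeal.comap (algebraMap (𝓞 K) (𝓞 F)) = v.asIdeal ∧
      Ideal.absNorm w.asIdeal = Ideal.absNorm v.asIdeal then
    (if IsSquare (Ideal.Quotient.mk w.asIdeal d) then x h.choose else σ (x h.choose))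
  else c F d w

theorem isFamily_fix {X : Type} (σ : X → X) (x : HeightOneSpectrum (𝓞 K) → X)
    (c : ∀ (F : IntermediateField K (AlgebraicClosure K)) [NumberField F],
      𝓞 F → HeightOneSpectrum (𝓞 F) → X) : IsFamily σ x (fix σ x c) := by
  intro F _ d w v hv hn _
  have h : ∃ v : HeightOneSpectrum (𝓞 K), w.asIdeal.comap (algebraMap (𝓞 K) (𝓞 F)) = v.asIdeal ∧
    Ideal.absNorm w.asIdeal = Ideal.absNorm v.asIdeal := ⟨v, hv, hn⟩
  have h1 : h.choose = v := HeightOneSpectrum.ext (h.choose_spec.1.symm.trans hv)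
  unfold fix
  rw [dif_pos h, h1]
  exact ⟨fun hs => if_pos hs, fun hs => if_neg hs⟩

theorem fix_eq {X : Type} {σ : X → X} {x : HeightOneSpectrum (𝓞 K) → X}
    {c : ∀ (F : IntermediateField K (AlgebraicClosure K)) [NumberField F],
      𝓞 F → HeightOneSpectrum (𝓞 F) → X} (hc : TwistedBaseChanges σ x c)
    (F : IntermediateField K (AlgebraicClosure K)) [NumberField F] (d : 𝓞 F) (hd : d ≠ 0) :
    ∃ Z : Set (HeightOneSpectrum (𝓞 F)), Z.Finite ∧ ∀ w, w ∉ Z → c F d w = fix σ x c F d w := by
  obtain ⟨S, hS⟩ := hc F d hd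
  refine ⟨S, S.finite_toSet, fun w hw => ?_⟩
  unfold fix
  split_ifs with h h'
  · exact (hS w (fun h => hw h) _ h.choose_spec.1 h.choose_spec.2).1 h'
  · exact (hS w (fun h => hw h) _ h.choose_spec.1 h.choose_spec.2).2 h'
  · rfl

/-- the averages only depend on the classes off a finite set -/
theorem tendsto_off {F : Type} [Field F] [NumberField F] {Z : Set (HeightOneSpectrum (𝓞 F))}
    (hZ : Z.Finite) {φ ψ : HeightOneSpectrum (𝓞 F) → ℝ} (hφ : ∀ v, |φ v| ≤ 1)
    (hψ : ∀ v, |ψ v| ≤ 1) (h : ∀ v, v ∉ Z → φ v = ψ v) :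
    Tendsto (fun N => mean F φ N - mean F ψ N) atTop (𝓝 0) := by
  rw [Metric.tendsto_atTop']
  intro ε hε
  obtain ⟨N₀, hN₀⟩ := eventually_atTop.1 (mean_off hZ (half_pos hε))
  refine ⟨N₀, fun N hN => ?_⟩
  rw [Real.dist_eq, sub_zero]
  have := hN₀ N hN.le φ ψ (fun v => by
    have h1 := abs_le.1 (hφ v)
    have h2 := abs_le.1 (hψ v)
    rw [abs_le]
    constructor <;> linarith [h1.1, h1.2, h2.1, h2.2]) h
  linarith

/-- the symmetrised averages do not depend on the twist -/
theorem tendsto_symm {X : Type} {σ : X → X} (hσ : ∀ y, σ (σ y) = y)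
    {x : HeightOneSpectrum (𝓞 K) → X}
    {c : ∀ (F : IntermediateField K (AlgebraicClosure K)) [NumberField F],
      𝓞 F → HeightOneSpectrum (𝓞 F) → X} (hc : IsFamily σ x c) (f : X → ℝ)
    (hf : ∀ y, |f y| ≤ 1) (F : IntermediateField K (AlgebraicClosure K)) [NumberField F]
    (d : 𝓞 F) (hd : d ≠ 0) :
    Tendsto (fun N => (mean F (fun w => f (c F d w)) N + mean F (fun w => f (σ (c F d w))) N) -
      (mean F (fun w => f (c F 1 w)) N + mean F (fun w => f (σ (c F 1 w))) N)) atTop (𝓝 0) := by
  set φ : HeightOneSpectrum (𝓞 F) → ℝ := fun w =>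
    (f (c F d w) + f (σ (c F d w))) - (f (c F 1 w) + f (σ (c F 1 w))) with hφ
  have h1 := mean_sub (F := F) φ (B := 4) (fun w => by
    have e1 := abs_le.1 (hf (c F d w))
    have e2 := abs_le.1 (hf (σ (c F d w)))
    have e3 := abs_le.1 (hf (c F 1 w))
    have e4 := abs_le.1 (hf (σ (c F 1 w)))
    rw [hφ, abs_le]
    constructor <;> linarith [e1.1, e1.2, e2.1, e2.2, e3.1, e3.2, e4.1, e4.2])
  have h2 : NN fun p => ∑ ψ : 𝓞 F →+* ZMod (p : ℕ), φ (kerPrime p ψ).1.1 := by
    refine NN.of_dvd (mul_ne_zero (N0_ne_zero hd) (N0_ne_zero (one_ne_zero : (1 : 𝓞 F) ≠ 0)))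
      fun p hp => ?_
    have : Fact (p : ℕ).Prime := ⟨p.2⟩
    refine Finset.sum_eq_zero fun ψ _ => ?_
    have hp1 : ¬ ((p : ℕ) : ℤ) ∣ N0 d := fun h => hp (h.mul_right _)
    have hp2 : ¬ ((p : ℕ) : ℤ) ∣ N0 (1 : 𝓞 F) := fun h => hp (h.mul_left _)
    have key : ∀ (d' : 𝓞 F), ¬ ((p : ℕ) : ℤ) ∣ N0 d' →
        f (c F d' (kerPrime p ψ).1.1) + f (σ (c F d' (kerPrime p ψ).1.1)) =
          f (xh x ⟨p, res K ψ⟩) + f (σ (xh x ⟨p, res K ψ⟩)) := by
      intro d' hd'
      rcases family_ker hc F d' p hd' ψ with ⟨_, h4⟩ | ⟨_, h4⟩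
      · rw [h4]
      · rw [h4, hσ, add_comm]
    change (f (c F d (kerPrime p ψ).1.1) + f (σ (c F d (kerPrime p ψ).1.1))) -
      (f (c F 1 (kerPrime p ψ).1.1) + f (σ (c F 1 (kerPrime p ψ).1.1))) = 0
    rw [key d hp1, key 1 hp2, sub_self]
  have h3 := h1.add h2
  rw [add_zero] at h3
  refine h3.congr fun N => ?_
  have e1 : mean F φ N = (mean F (fun w => f (c F d w)) N + mean F (fun w => f (σ (c F d w))) N) -
      (mean F (fun w => f (c F 1 w)) N + mean F (fun w => f (σ (c F 1 w))) N) := by
    have a1 := mean_lin (F := F) (fun w => f (c F d w)) (fun w => f (σ (c F d w))) 1 1 N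
    have a2 := mean_lin (F := F) (fun w => f (c F 1 w)) (fun w => f (σ (c F 1 w))) 1 1 N
    have a3 := mean_lin (F := F) (fun w => 1 * f (c F d w) + 1 * f (σ (c F d w)))
      (fun w => 1 * f (c F 1 w) + 1 * f (σ (c F 1 w))) 1 (-1) N
    rw [a1, a2] at a3
    have e2 : φ = fun w => 1 * (1 * f (c F d w) + 1 * f (σ (c F d w))) +
        (-1) * (1 * f (c F 1 w) + 1 * f (σ (c F 1 w))) := by
      funext w
      rw [hφ]
      ring
    rw [e2, a3]
    ring
  rw [← e1]
  ring

end Bridge

/-- **One extension of bounded degree governs the limit measures of all twists of all base changes.**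
Let `X` be a compact metric space.  There are integers `B n k` with the following property, for every
number field `K`, every isometric involution `σ` of `X`, every family `x_v ∈ X` and its twisted base
changes `c F d`.  Every infinite set `S` of scales has an infinite subset `S'` along which the averages of
all the `c F d` have limit measures `μ F d`, and for all `n` and `k ≥ 1` and every finite normal extension
`L` of `K` there is a finite Galois extension `M ⊇ L` of `K` of degree at most `B n k * [L : K]` such that,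
in the dual bounded Lipschitz distance,

* if `[F : K] ≤ n` and `d` is not a square in `F M`, then `μ F d` is at distance less than `1/k` from the
  symmetrisation of `μ F 1`;
* there are at most `2 ^ (2 [M : K] + 2)` pairs `(G, e)`, `G ⊆ M`, such that for all `F` with `[F : K] ≤ n`
  and all `d ≠ 0` one of them has `G = F ∩ M`, is related to `d` and has `μ G e` at distance less than
  `1/k` from `μ F d`. -/
theorem result (X : Type) [MetricSpace X] [CompactSpace X] [MeasurableSpace X] [BorelSpace X]
    [Nonempty X] :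
    ∃ B : ℕ → ℕ → ℕ, ∀ (K : Type) [Field K] [NumberField K] (σ : X → X),
      LipschitzWith 1 σ → (∀ y, σ (σ y) = y) →
      ∀ (x : HeightOneSpectrum (𝓞 K) → X) (c : Classes K X), TwistedBaseChanges σ x c →
      ∀ S : Set ℕ, S.Infinite → ∃ S' ⊆ S, S'.Infinite ∧ ∃ μ : Laws K X, IsLimit c S' μ ∧
        ∀ n k : ℕ, 1 ≤ k → ∀ (L : IntermediateField K (AlgebraicClosure K))
          [FiniteDimensional K L] [Normal K L], ∃ M, Governs σ μ n k (B n k) L M := by
  classical
  have hmU : ∀ n k : ℕ, ∃ B : ℕ, 1 ≤ k → ∀ (K : Type) [Field K] [NumberField K] (σ : X → X)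
      (_ : LipschitzWith 1 σ)
      (_ : ∀ y, σ (σ y) = y) (x : HeightOneSpectrum (𝓞 K) → X)
      (c : ∀ (F : IntermediateField K (AlgebraicClosure K)) [NumberField F],
        𝓞 F → HeightOneSpectrum (𝓞 F) → X) (_ : Pool.Agent.W529.ST.IsFamily σ x c)
      (L : IntermediateField K (AlgebraicClosure K)) [FiniteDimensional K L] [Normal K L]
      (U : Ultrafilter ℕ) (_ : (U : Filter ℕ) ≤ atTop),
      ∃ M : IntermediateField K (AlgebraicClosure K),
        L ≤ M ∧ FiniteDimensional K M ∧ IsGalois K M ∧ Normal K M ∧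
        Module.finrank K M ≤ B * Module.finrank K L ∧
        (∀ (F : IntermediateField K (AlgebraicClosure K)) [NumberField F] (d : 𝓞 F),
          Module.finrank K F ≤ n → d ≠ 0 →
            (∀ y ∈ F ⊔ M, y ^ 2 ≠ Pool.Agent.W529.ST.inj d) →
          ∀ f : X → ℝ, Pool.Agent.W529.ST.Test f → ∀ α β : ℝ,
            Tendsto (Pool.Agent.W529.ST.mean F (fun w => f (c F d w))) U (𝓝 α) →
            Tendsto (Pool.Agent.W529.ST.mean F (fun w => f (σ (c F d w)))) U (𝓝 β) →
              |α - β| < 1 / k) ∧
        (∀ (F F₀ : IntermediateField K (AlgebraicClosure K)) [NumberField F] [NumberField F₀],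
          F₀ = F ⊓ M → Module.finrank K F ≤ n → ∀ (d : 𝓞 F) (e : 𝓞 F₀), d ≠ 0 → e ≠ 0 →
          Pool.Agent.W529.ST.Related M d e →
          ∀ f : X → ℝ, Pool.Agent.W529.ST.Test f → ∀ α β : ℝ,
            Tendsto (Pool.Agent.W529.ST.mean F (fun w => f (c F d w))) U (𝓝 α) →
            Tendsto (Pool.Agent.W529.ST.mean F₀ (fun w => f (c F₀ e w))) U (𝓝 β) →
              |α - β| < 1 / k) := by
    intro n k
    by_cases hk : 1 ≤ k
    · obtain ⟨B, hB⟩ := Pool.Agent.W529.ST.main_U X n k hk
      exact ⟨B, fun _ => hB⟩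
    · exact ⟨0, fun h => absurd h hk⟩
  choose B hB using hmU
  refine ⟨B, ?_⟩
  intro K _ _ σ hσ1 hσ2 x c hc S hS
  obtain ⟨S', hS', hinf, μ, hμ⟩ :=
    Pool.Agent.W529.ST.exists_limits (X := X) (K := K) (fix σ x c) S hS
  -- the filter
  have hne : (atTop ⊓ 𝓟 S').NeBot := by
    rw [← frequently_mem_iff_neBot, Nat.frequently_atTop_iff_infinite]
    exact hinf
  obtain ⟨U, hU0⟩ : ∃ U : Ultrafilter ℕ, (U : Filter ℕ) ≤ atTop ⊓ 𝓟 S' :=
    ⟨Ultrafilter.of _, Ultrafilter.of_le _⟩
  have hU : (U : Filter ℕ) ≤ atTop := hU0.trans inf_le_left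
  have hfam := isFamily_fix σ x c
  refine ⟨S', hS', hinf, μ, ?_, ?_⟩
  · intro F _ d hd f hf
    -- scale the function
    obtain ⟨C, hC0, hC⟩ : ∃ C : ℝ, 0 < C ∧ ∀ y, |f y| ≤ C := by
      obtain ⟨C, hC⟩ := (isCompact_univ (X := X)).exists_bound_of_continuousOn hf.continuousOn
      exact ⟨max C 1, lt_of_lt_of_le one_pos (le_max_right _ _), fun y =>
        (hC y (Set.mem_univ y)).trans (le_max_left _ _)⟩
    obtain ⟨Z, hZ, hZ'⟩ := fix_eq hc F d hd
    have hb : ∀ z : X, |f z / C| ≤ 1 := by
      intro z
      rw [abs_div, abs_of_pos hC0, div_le_one hC0]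
      exact hC z
    have h1 := tendsto_off (F := F) hZ (φ := fun w => f (c F d w) / C)
      (ψ := fun w => f (fix σ x c F d w) / C) (fun w => hb _) (fun w => hb _)
      (fun w hw => by simp only [hZ' w hw])
    have h2 : ∀ (φ : HeightOneSpectrum (𝓞 F) → ℝ) (N : ℕ),
        Pool.Agent.W529.ST.mean F (fun w => φ w / C) N =
          C⁻¹ * Pool.Agent.W529.ST.mean F φ N := by
      intro φ N
      rw [← Pool.Agent.W529.ST.mean_const_mul]
      congr 1
      funext w
      rw [div_eq_inv_mul]
    have h3 : Tendsto (fun N => Pool.Agent.W529.ST.mean F (fun w => f (c F d w)) N -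
        Pool.Agent.W529.ST.mean F (fun w => f (fix σ x c F d w)) N) atTop (𝓝 0) := by
      have h4 := h1.const_mul C
      rw [mul_zero] at h4
      refine h4.congr fun N => ?_
      rw [h2, h2]
      field_simp
    have h5 := (h3.mono_left (inf_le_left : atTop ⊓ 𝓟 S' ≤ atTop)).add (hμ F d f hf)
    rw [zero_add] at h5
    refine h5.congr fun N => ?_
    change _ = Pool.Agent.W529.ST.mean F (fun w => f (c F d w)) N
    ring
  · intro n k hk L _ _
    obtain ⟨M, hLM, hM1, hM2, hM3, hdeg, hA, hBr⟩ :=
      hB n k hk K σ hσ1 hσ2 x (fix σ x c) hfam L U hU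
    obtain ⟨l, G, e, hl, hG, hG'⟩ := Pool.Agent.W529.ST.list_C (K := K) M
    have hT : ∀ (F : IntermediateField K (AlgebraicClosure K)) [NumberField F] (d : 𝓞 F)
        (f : X → ℝ), Continuous f →
        Tendsto (Pool.Agent.W529.ST.mean F (fun w => f (fix σ x c F d w))) U
          (𝓝 (∫ y, f y ∂(μ F d : Measure X))) := fun F _ d f hf => (hμ F d f hf).mono_left hU0
    refine ⟨M, hLM, hM1, hM2, hdeg, ?_, l, G, fun a => (hG a).2.1, e, hl,
      fun a => ⟨(hG a).1, (hG a).2.2⟩, ?_⟩
    · intro F _ d hF hd hsq f hf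
      have hsq' : ∀ y ∈ F ⊔ M, y ^ 2 ≠ Pool.Agent.W529.ST.inj d := by
        intro y hy h
        exact hsq ⟨y, hy, h⟩
      have hfc : Continuous f := hf.1.continuous
      have hfσ : Continuous (fun y => f (σ y)) := hfc.comp hσ1.continuous
      have t1 := hT F d f hfc
      have t2 := hT F d (fun y => f (σ y)) hfσ
      have t3 := hT F 1 f hfc
      have t4 := hT F 1 (fun y => f (σ y)) hfσ
      have h1 := hA F d hF hd hsq' f hf _ _ t1 t2
      have h2 := (tendsto_symm hσ2 hfam f hf.2 F d hd).mono_left hU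
      have h3 := tendsto_nhds_unique h2 ((t1.add t2).sub (t3.add t4))
      have i1 : ∀ ν : Measure X, IsProbabilityMeasure ν → ∫ y, (f y + f (σ y)) / 2 ∂ν =
          (∫ y, f y ∂ν + ∫ y, f (σ y) ∂ν) / 2 := by
        intro ν _
        have a1 : Integrable f ν := hfc.integrable_of_hasCompactSupport
          (HasCompactSupport.of_compactSpace f)
        have a2 : Integrable (fun y => f (σ y)) ν := hfσ.integrable_of_hasCompactSupport
          (HasCompactSupport.of_compactSpace _)
        rw [integral_div, integral_add a1 a2]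
      rw [i1 _ inferInstance]
      rw [abs_lt] at h1 ⊢
      constructor <;> linarith [h1.1, h1.2]
    · intro F _ d hF hd
      obtain ⟨a, ha1, ha2⟩ := hG' F d hd
      have hnf := (hG a).2.1
      refine ⟨a, ha1, (related_iff M d (e a)).2 ha2, fun f hf => ?_⟩
      exact hBr F (G a) ha1 hF d (e a) hd (hG a).2.2 ha2 f hf _ _ (hT F d f hf.1.continuous)
        (hT (G a) (e a) f hf.1.continuous)

end Pool.Agent.Results.MP_c481b3_nt.GoverningExtension
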