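import Pool.Agent.Q26.ST.Cheb

set_option autoImplicit false

/-!
# The joint Sato-Tate law of two families from meromorphy, and the law in Chebotarev classes

`K` is a number field and `A`, `A'` are abelian varieties over `K` (or arbitrary families with a Sato-Tate
group); `G = ST(A)`, `G' = ST(A')` are the compact Sato-Tate groups with their Haar probability measures and
`x_v ∈ G`, `x'_v ∈ G'` are elements of the classes of the prime `v` of `K` (any elements at the finitely many
other primes).  Suppose that the Sato-Tate law holds for `A` and for `A'`.  The law for `A × A'` (if its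
Sato-Tate group is `G × G'`, as it is in the independent case) is the equidistribution of the pairs
`(x_v, x'_v)`.  By the criterion of Serre it follows if the L-functions `L(π × π', s)` of the pairs of
nontrivial irreducible representations `π` of `G` and `π'` of `G'` have continuations to `Re s ≥ 1`
WITHOUT ZEROS AND POLES.  We show that zeros and poles on the line `Re s = 1` are excluded automatically
if `|tr π|²` and `|tr π'|²` have different laws, so that a local meromorphic continuation is enough; and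
without any continuation `|log |L(π × π', 1 + iτ + ε)||` is at most `(1 - δ) log (1 / ε)`.

This applies in particular to the finite group `G' = H` of a Galois extension of `K`, with the theorem of
Chebotarev as the law of the `x'_v`: if `G` is connected and has no nontrivial one-dimensional
representation, then the Sato-Tate law for `A` in each Chebotarev class of the extension (hence also over
its intermediate fields) follows from the law over `K` and local meromorphic continuations of the
twists `L(π ⊗ ρ, s)` by Artin representations; the line `Re s = 1` is free of zeros and poles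
unconditionally, in the sense that each continuation has order `0` at its points.
-/

namespace Pool.Agent.Results.MP_c481b3_nt.JointFromMeromorphy

open NumberField IsDedekindDomain Filter Topology MeasureTheory
open scoped ComplexConjugate Kronecker

section

variable {K : Type} [Field K] [NumberField K]

/-- The average of `φ` over the primes of `K` of norm at most `N`. -/
noncomputable def avg (φ : HeightOneSpectrum (𝓞 K) → ℂ) (N : ℕ) : ℂ :=
  (∑ᶠ v : {v : HeightOneSpectrum (𝓞 K) // Ideal.absNorm v.asIdeal ≤ N}, φ v.1) /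
    (Nat.card {v : HeightOneSpectrum (𝓞 K) // Ideal.absNorm v.asIdeal ≤ N} : ℂ)

/-- The classes of the `x v` are equidistributed for `μ`. -/
def Equidistributed {G : Type} [Group G] [TopologicalSpace G] [MeasurableSpace G]
    (x : HeightOneSpectrum (𝓞 K) → G) (μ : Measure G) : Prop :=
  ∀ f : G → ℂ, Continuous f → (∀ g h, f (h * g * h⁻¹) = f g) →
    Tendsto (avg fun v => f (x v)) atTop (𝓝 (∫ g, f g ∂μ))

/-- The absolute Galois group of `K`. -/
abbrev Gamma (K : Type) [Field K] : Type := Gal(AlgebraicClosure K/K)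

/-- `s` is a Frobenius element at the prime `v` of `K`: there is a maximal ideal `Q` above `v` of the ring
of all algebraic integers with `s x ≡ x ^ N(v)` modulo `Q` for all `x`. -/
def IsFrobeniusElement (v : HeightOneSpectrum (𝓞 K)) (s : Gamma K) : Prop :=
  ∃ Q : Ideal (𝓞 (AlgebraicClosure K)), Q.IsMaximal ∧
    Q.comap (algebraMap (𝓞 K) (𝓞 (AlgebraicClosure K))) = v.asIdeal ∧
    ∀ x : 𝓞 (AlgebraicClosure K), s • x - x ^ Ideal.absNorm v.asIdeal ∈ Q

/-- The set `S` of primes of `K` has Dirichlet density zero. -/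
def DensityZero (S : Set (HeightOneSpectrum (𝓞 K))) : Prop :=
  Tendsto (fun ε : ℝ => (∑' v : HeightOneSpectrum (𝓞 K),
    S.indicator (fun v => (Ideal.absNorm v.asIdeal : ℝ) ^ (-(1 + ε))) v) / Real.log (1 / ε))
    (𝓝[>] 0) (𝓝 0)

end

section

variable {G : Type} [Group G] {n : ℕ} {G' : Type} [Group G'] {n' : ℕ}

/-- The character of `π`. -/
noncomputable def tr (π : G →* Matrix.unitaryGroup (Fin n) ℂ) (g : G) : ℂ :=
  (π g : Matrix (Fin n) (Fin n) ℂ).trace

/-- The unitary representation `π` is irreducible (only the scalars commute with all matrices `π g`). -/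
def IsIrreducible (π : G →* Matrix.unitaryGroup (Fin n) ℂ) : Prop :=
  ∀ A : Matrix (Fin n) (Fin n) ℂ, (∀ g, (π g : Matrix (Fin n) (Fin n) ℂ) * A = A * π g) →
    ∃ c : ℂ, A = c • (1 : Matrix (Fin n) (Fin n) ℂ)

/-- The unitary representation `π` is continuous, irreducible and not trivial. -/
structure IsNontrivialIrreducible [TopologicalSpace G]
    (π : G →* Matrix.unitaryGroup (Fin n) ℂ) : Prop where
  continuous : Continuous π
  irreducible : IsIrreducible π
  nontrivial : ∃ g, π g ≠ 1

/-- `|tr π|²` and `|tr π'|²` have the same moments (and hence the same law). -/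
def SameMoments [MeasurableSpace G] [MeasurableSpace G'] (π : G →* Matrix.unitaryGroup (Fin n) ℂ)
    (μ : Measure G) (π' : G' →* Matrix.unitaryGroup (Fin n') ℂ) (μ' : Measure G') : Prop :=
  ∀ k : ℕ, ∫ g, (‖tr π g‖ ^ 2) ^ k ∂μ = ∫ g, (‖tr π' g‖ ^ 2) ^ k ∂μ'

variable {K : Type} [Field K] [NumberField K]

/-- The Euler product `L(π × π', s) = ∏_v det(1 - q_v^{-s} π(x_v) ⊗ π'(x'_v))⁻¹`. -/
noncomputable def LFun (π : G →* Matrix.unitaryGroup (Fin n) ℂ) (x : HeightOneSpectrum (𝓞 K) → G)
    (π' : G' →* Matrix.unitaryGroup (Fin n') ℂ) (x' : HeightOneSpectrum (𝓞 K) → G') (s : ℂ) : ℂ :=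
  ∏' v : HeightOneSpectrum (𝓞 K), (Matrix.det (1 - ((Ideal.absNorm v.asIdeal : ℂ) ^ (-s)) •
    ((π (x v) : Matrix (Fin n) (Fin n) ℂ) ⊗ₖ (π' (x' v) : Matrix (Fin n') (Fin n') ℂ))))⁻¹

/-- `log |L(π × π', 1 + iτ + ε)| / log (1/ε)`. -/
noncomputable def size (π : G →* Matrix.unitaryGroup (Fin n) ℂ) (x : HeightOneSpectrum (𝓞 K) → G)
    (π' : G' →* Matrix.unitaryGroup (Fin n') ℂ) (x' : HeightOneSpectrum (𝓞 K) → G') (τ ε : ℝ) :
    ℝ := Real.log ‖LFun π x π' x' (1 + τ * Complex.I + ε)‖ / Real.log (1 / ε)

/-- `Λ` is a meromorphic continuation of `L(π × π', s)` to a neighbourhood of `1 + iτ`. -/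
def IsContinuation (π : G →* Matrix.unitaryGroup (Fin n) ℂ) (x : HeightOneSpectrum (𝓞 K) → G)
    (π' : G' →* Matrix.unitaryGroup (Fin n') ℂ) (x' : HeightOneSpectrum (𝓞 K) → G')
    (τ : ℝ) (Λ : ℂ → ℂ) : Prop :=
  MeromorphicAt Λ (1 + τ * Complex.I) ∧
    ∀ᶠ s in 𝓝 ((1 : ℂ) + τ * Complex.I), (1 : ℝ) < s.re → Λ s = LFun π x π' x' s

/-- The order of every local meromorphic continuation of `L(π × π', s)` at `1 + iτ` is `-1`, `0` or `1`,
and if it is not `0`, then `|tr π|²` and `|tr π'|²` have the same moments, and outside a set of primes of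
density zero `tr π(x_v)` is as close as we like to `-m q_v^{iτ}` times the conjugate of `tr π'(x'_v)`. -/
def Orders [MeasurableSpace G] [MeasurableSpace G'] (π : G →* Matrix.unitaryGroup (Fin n) ℂ)
    (x : HeightOneSpectrum (𝓞 K) → G) (μ : Measure G)
    (π' : G' →* Matrix.unitaryGroup (Fin n') ℂ) (x' : HeightOneSpectrum (𝓞 K) → G')
    (μ' : Measure G') (τ : ℝ) : Prop :=
  ∀ Λ, IsContinuation π x π' x' τ Λ → ∃ m : ℤ,
    meromorphicOrderAt Λ (1 + τ * Complex.I) = m ∧ |m| ≤ 1 ∧
    (m ≠ 0 → SameMoments π μ π' μ' ∧ ∀ δ : ℝ, 0 < δ → DensityZero {v | δ < ‖tr π (x v) +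
      m * ((Ideal.absNorm v.asIdeal : ℂ) ^ (τ * Complex.I)) * conj (tr π' (x' v))‖})

end

section Bridge

set_option linter.unusedSectionVars false

open Pool.Agent.TH553.ST Pool.Agent.TH553.RS Pool.Agent.W540.BE

variable {K : Type} [Field K] [NumberField K]

theorem avg_eq (g : HeightOneSpectrum (𝓞 K) → ℂ) : avg g = mn g := by
  funext N
  have hs : ∀ v, v ∈ upto K N ↔ Ideal.absNorm v.asIdeal ≤ N := fun v => mem_upto
  let e : {v : HeightOneSpectrum (𝓞 K) // Ideal.absNorm v.asIdeal ≤ N} ≃ (upto K N) :=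
    Equiv.subtypeEquivRight fun v => (hs v).symm
  have hfin : Finite {v : HeightOneSpectrum (𝓞 K) // Ideal.absNorm v.asIdeal ≤ N} :=
    Finite.of_equiv _ e.symm
  unfold avg mn
  have h1 : (∑ᶠ v : {v : HeightOneSpectrum (𝓞 K) // Ideal.absNorm v.asIdeal ≤ N}, g v.1) =
      ∑ v ∈ upto K N, g v := by
    rw [← Finset.sum_coe_sort, ← finsum_eq_sum_of_fintype, ← finsum_comp_equiv e]
    rfl
  have h2 : Nat.card {v : HeightOneSpectrum (𝓞 K) // Ideal.absNorm v.asIdeal ≤ N} =
      (upto K N).card := by
    rw [Nat.card_congr e, Nat.card_eq_fintype_card, Fintype.card_coe]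
  rw [h1, h2, Complex.real_smul, div_eq_inv_mul]
  push_cast
  rfl

variable {G : Type} [Group G] [TopologicalSpace G] [IsTopologicalGroup G] [CompactSpace G]
  [MeasurableSpace G] [BorelSpace G] {μ : Measure G} [IsProbabilityMeasure μ] [μ.IsHaarMeasure]
  {n : ℕ} {π : G →* Matrix.unitaryGroup (Fin n) ℂ}
variable {G' : Type} [Group G'] [TopologicalSpace G'] [IsTopologicalGroup G'] [CompactSpace G']
  [MeasurableSpace G'] [BorelSpace G'] {μ' : Measure G'} [IsProbabilityMeasure μ']
  [μ'.IsHaarMeasure] {n' : ℕ} {π' : G' →* Matrix.unitaryGroup (Fin n') ℂ}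
  {x : HeightOneSpectrum (𝓞 K) → G} {x' : HeightOneSpectrum (𝓞 K) → G'}

theorem law_of (h : Equidistributed x μ) : Law x μ := by
  intro f hf hcl
  have h1 := h (fun g => (f g : ℂ)) (Complex.continuous_ofReal.comp hf) fun g h => by rw [hcl]
  have h0 : ∫ g, (f g : ℂ) ∂μ = ((∫ g, f g ∂μ : ℝ) : ℂ) := integral_ofReal
  rw [avg_eq, h0] at h1
  have h2 := (Complex.continuous_re.tendsto _).comp h1
  refine h2.congr fun N => ?_
  simp only [Function.comp]
  rw [re_mn]
  rfl

theorem LFun_eq : LFun π x π' x' = LP π x π' x' := rfl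

theorem size_eq (τ : ℝ) : size π x π' x' τ = sz π x π' x' τ := rfl

theorem same_iff : SameMoments π μ π' μ' ↔ Same π μ π' μ' := Iff.rfl

theorem density_of {S : Set (HeightOneSpectrum (𝓞 K))}
    (h : Tendsto (fun ε => EP (nm K) ε (S.indicator fun _ => 1) / Real.log (1 / ε)) (𝓝[>] 0)
      (𝓝 0)) : DensityZero S := by
  unfold DensityZero
  refine h.congr fun ε => ?_
  congr 1
  unfold EP
  refine tsum_congr fun v => ?_
  by_cases hv : v ∈ S
  · rw [Set.indicator_of_mem hv, Set.indicator_of_mem hv, one_mul]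
    rfl
  · rw [Set.indicator_of_notMem hv, Set.indicator_of_notMem hv, zero_mul]

theorem df_eq (m : ℤ) (τ : ℝ) (v : HeightOneSpectrum (𝓞 K)) :
    df (-(m : ℝ)) (tc π x 0) (tc π' x' τ) v = tr π (x v) +
      m * ((Ideal.absNorm v.asIdeal : ℂ) ^ (τ * Complex.I)) * conj (tr π' (x' v)) := by
  unfold df tc
  have h1 : conj (((nm K v : ℕ) : ℂ) ^ (-(τ * Complex.I : ℂ))) =
      ((Ideal.absNorm v.asIdeal : ℂ) ^ (τ * Complex.I)) := by
    have h2 : ((nm K v : ℕ) : ℂ) = (((nm K v : ℕ) : ℝ) : ℂ) := by push_cast; rfl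
    have h3 : ((Ideal.absNorm v.asIdeal : ℕ) : ℂ) = (((nm K v : ℕ) : ℝ) : ℂ) := by
      push_cast; rfl
    have h4 : Complex.arg (((nm K v : ℕ) : ℝ) : ℂ) ≠ Real.pi := by
      rw [Complex.arg_ofReal_of_nonneg (Nat.cast_nonneg _)]
      exact Real.pi_pos.ne
    rw [h2, h3]
    rw [← Complex.conj_ofReal ((nm K v : ℕ) : ℝ)]
    rw [Complex.conj_cpow _ _ h4]
    simp
  rw [map_mul, h1]
  simp only [Complex.ofReal_zero, zero_mul, neg_zero, Complex.cpow_zero, mul_one]
  push_cast
  change chi π (x v) - -(m : ℂ) * (conj (chi π' (x' v)) * _) = chi π (x v) + m * _ *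
    conj (chi π' (x' v))
  ring

theorem orders_of (hx : Law x μ) (hx' : Law x' μ') (hπ : IsNontrivialIrreducible π)
    (hc' : Continuous π') (hs' : IsIrreducible π') (τ : ℝ) : Orders π x μ π' x' μ' τ := by
  intro Λ hΛ
  obtain ⟨m, hm1, hm2⟩ := order_LP (x := x) (x' := x') hΛ.1 hΛ.2
  refine ⟨m, hm1, ?_, fun hm0 => ?_⟩
  · by_cases hm0 : m = 0
    · rw [hm0]
      norm_num
    · exact (pair_rigid hx hx' hπ.continuous hπ.irreducible hc' hs' hm2 hm0).1.le
  · obtain ⟨-, h2, h3⟩ := pair_rigid hx hx' hπ.continuous hπ.irreducible hc' hs' hm2 hm0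
    refine ⟨h2, fun δ hδ => ?_⟩
    have h4 := density_of (h3 δ hδ)
    simp only [df_eq] at h4
    exact h4

end Bridge

/-- **I.**  Let `K` be a number field and let `G`, `G'` be compact groups with Haar probability measures
`μ`, `μ'`, and `x_v ∈ G`, `x'_v ∈ G'` for the primes `v` of `K`, such that the classes of the `x_v` and the
classes of the `x'_v` are equidistributed.  Then, for all nontrivial irreducible representations `π` of `G`
and `π'` of `G'` and all real `τ`, `L(π × π', 1 + iτ + ε)` is not zero for small `ε > 0`, the quotient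
`size = log |L(π × π', 1 + iτ + ε)| / log (1/ε)` is at most `1 + η` in absolute value for small `ε > 0`, for each
`η > 0`, and at most `1 - δ` for some `δ > 0` if the moments of `|tr π|²` and `|tr π'|²` are not the same;
the local meromorphic continuations are as described in `Orders`.  If for all nontrivial irreducible `π`
and `π'` the moments are not the same and there are local meromorphic continuations at all points of the
line `Re s = 1`, then the classes of the pairs `(x_v, x'_v)` are equidistributed for `μ × μ'`.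

**II.**  Let `G` be connected and without nontrivial one-dimensional representations, let `π` be a
nontrivial irreducible representation of `G` and `π'` a continuous representation of `G'` such that `|tr π'|²` takes only
finitely many values (for example if `G'` is finite or `π'` is one-dimensional).  Then the moments are
not the same.

**III.**  Let `G` be as in II, let the classes of the `x_v` be equidistributed, let `H` be a finite group,
`ξ` a surjective homomorphism with open kernel from the absolute Galois group of `K` to `H`, and `y_v = ξ(s_v)` for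
Frobenius elements `s_v`.  Then for all nontrivial irreducible `π` of `G`, all irreducible `ρ` of `H` and
all `τ` the size is at most `1 - δ` in absolute value for some `δ > 0` and all small `ε > 0`, and every
local meromorphic continuation of `L(π ⊗ ρ, s)` at `1 + iτ` has order `0` there.  If there are local
meromorphic continuations for all nontrivial irreducible `π`, `ρ` and all `τ`, then for every
subset `C` of `H` closed under conjugation the `x_v` with `y_v ∈ C` are equidistributed: the averages of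
`f(x_v) 1_C(y_v)` tend to `|C| / |H|` times the integral of `f`. -/
theorem result :
    (∀ (K : Type) [Field K] [NumberField K]
      (G : Type) [Group G] [TopologicalSpace G] [IsTopologicalGroup G] [CompactSpace G] [T2Space G]
      [SecondCountableTopology G] [MeasurableSpace G] [BorelSpace G] (μ : Measure G)
      [IsProbabilityMeasure μ] [μ.IsHaarMeasure]
      (G' : Type) [Group G'] [TopologicalSpace G'] [IsTopologicalGroup G'] [CompactSpace G']
      [T2Space G'] [SecondCountableTopology G'] [MeasurableSpace G'] [BorelSpace G']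
      (μ' : Measure G') [IsProbabilityMeasure μ'] [μ'.IsHaarMeasure]
      (x : HeightOneSpectrum (𝓞 K) → G) (x' : HeightOneSpectrum (𝓞 K) → G'),
      Equidistributed x μ → Equidistributed x' μ' →
      (∀ (n n' : ℕ) (π : G →* Matrix.unitaryGroup (Fin n) ℂ)
        (π' : G' →* Matrix.unitaryGroup (Fin n') ℂ), IsNontrivialIrreducible π →
        IsNontrivialIrreducible π' → ∀ τ : ℝ,
        (∀ᶠ ε : ℝ in 𝓝[>] 0, LFun π x π' x' (1 + τ * Complex.I + ε) ≠ 0) ∧
        (∀ η : ℝ, 0 < η → ∀ᶠ ε : ℝ in 𝓝[>] 0, |size π x π' x' τ ε| ≤ 1 + η) ∧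
        (¬ SameMoments π μ π' μ' → ∃ δ : ℝ, 0 < δ ∧ ∀ᶠ ε : ℝ in 𝓝[>] 0,
          |size π x π' x' τ ε| ≤ 1 - δ) ∧
        Orders π x μ π' x' μ' τ) ∧
      ((∀ (n n' : ℕ) (π : G →* Matrix.unitaryGroup (Fin n) ℂ)
        (π' : G' →* Matrix.unitaryGroup (Fin n') ℂ), IsNontrivialIrreducible π →
        IsNontrivialIrreducible π' → ¬ SameMoments π μ π' μ' ∧
          ∀ τ : ℝ, ∃ Λ, IsContinuation π x π' x' τ Λ) →
        Equidistributed (fun v => (x v, x' v)) (μ.prod μ'))) ∧
    (∀ (G : Type) [Group G] [TopologicalSpace G] [IsTopologicalGroup G] [CompactSpace G]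
      [ConnectedSpace G] [MeasurableSpace G] [BorelSpace G] (μ : Measure G)
      [IsProbabilityMeasure μ] [μ.IsHaarMeasure]
      (G' : Type) [Group G'] [TopologicalSpace G'] [IsTopologicalGroup G'] [CompactSpace G']
      [MeasurableSpace G'] [BorelSpace G'] (μ' : Measure G') [IsProbabilityMeasure μ']
      [μ'.IsHaarMeasure]
      (n n' : ℕ) (π : G →* Matrix.unitaryGroup (Fin n) ℂ)
      (π' : G' →* Matrix.unitaryGroup (Fin n') ℂ),
      (∀ ψ : G →* Matrix.unitaryGroup (Fin 1) ℂ, Continuous ψ → ∀ g, ψ g = 1) →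
      IsNontrivialIrreducible π → Continuous π' → (Set.range fun g => ‖tr π' g‖ ^ 2).Finite →
      ¬ SameMoments π μ π' μ') ∧
    (∀ (K : Type) [Field K] [NumberField K]
      (G : Type) [Group G] [TopologicalSpace G] [IsTopologicalGroup G] [CompactSpace G] [T2Space G]
      [SecondCountableTopology G] [ConnectedSpace G] [MeasurableSpace G] [BorelSpace G]
      (μ : Measure G) [IsProbabilityMeasure μ] [μ.IsHaarMeasure]
      (x : HeightOneSpectrum (𝓞 K) → G) (H : Type) [Group H] [Finite H] (ξ : Gamma K →* H)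
      (s : HeightOneSpectrum (𝓞 K) → Gamma K),
      (∀ ψ : G →* Matrix.unitaryGroup (Fin 1) ℂ, Continuous ψ → ∀ g, ψ g = 1) →
      Equidistributed x μ → IsOpen (ξ.ker : Set (Gamma K)) → Function.Surjective ξ →
      (∀ v, IsFrobeniusElement v (s v)) →
      (∀ (n m : ℕ) (π : G →* Matrix.unitaryGroup (Fin n) ℂ)
        (ρ : H →* Matrix.unitaryGroup (Fin m) ℂ), IsNontrivialIrreducible π →
        IsIrreducible ρ → ∀ τ : ℝ,
        (∃ δ : ℝ, 0 < δ ∧ ∀ᶠ ε : ℝ in 𝓝[>] 0, |size π x ρ (fun v => ξ (s v)) τ ε| ≤ 1 - δ) ∧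
        ∀ Λ, IsContinuation π x ρ (fun v => ξ (s v)) τ Λ →
          meromorphicOrderAt Λ (1 + τ * Complex.I) = 0) ∧
      ((∀ (n m : ℕ) (π : G →* Matrix.unitaryGroup (Fin n) ℂ)
        (ρ : H →* Matrix.unitaryGroup (Fin m) ℂ), IsNontrivialIrreducible π →
        IsIrreducible ρ → (∃ h, ρ h ≠ 1) → ∀ τ : ℝ,
        ∃ Λ, IsContinuation π x ρ (fun v => ξ (s v)) τ Λ) →
        ∀ C : Set H, (∀ c ∈ C, ∀ h, h * c * h⁻¹ ∈ C) → ∀ f : G → ℂ, Continuous f →
          (∀ g h, f (h * g * h⁻¹) = f g) →
          Tendsto (avg fun v => f (x v) * C.indicator (fun _ => 1) (ξ (s v))) atTop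
            (𝓝 ((C.ncard : ℂ) / (Nat.card H : ℂ) * ∫ g, f g ∂μ)))) := by
  refine ⟨?_, ?_, ?_⟩
  · intro K _ _ G _ _ _ _ _ _ _ _ μ _ _ G' _ _ _ _ _ _ _ _ μ' _ _ x x' hx hx'
    have h1 := law_of hx
    have h2 := law_of hx'
    refine ⟨fun n n' π π' hπ hπ' τ => ⟨(Pool.Agent.TH553.ST.size_LP π x π' x' τ).1,
      fun η hη => Pool.Agent.TH553.ST.pair_le h1 h2 hπ.continuous hπ.irreducible hπ'.continuous
        hπ'.irreducible τ hη,
      fun hd => Pool.Agent.TH553.ST.pair_lt h1 h2 hπ.continuous hπ.irreducible hπ'.continuous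
        hπ'.irreducible hd τ,
      orders_of h1 h2 hπ hπ'.continuous hπ'.irreducible τ⟩, fun hall f hf hcl => ?_⟩
    rw [avg_eq]
    exact Pool.Agent.Q26.ST.joint_law h1 h2 (fun n n' π π' a1 a2 a3 b1 b2 b3 =>
      hall n n' π π' ⟨a1, a2, a3⟩ ⟨b1, b2, b3⟩) hf fun g g' k k' => hcl (g, g') (k, k')
  · intro G _ _ _ _ _ _ _ μ _ _ G' _ _ _ _ _ _ μ' _ _ n n' π π' hG hπ hc' hfin
    exact Pool.Agent.Q26.ST.not_same hG hπ.continuous hπ.irreducible hπ.nontrivial hc' hfin
  · intro K _ _ G _ _ _ _ _ _ _ _ _ μ _ _ x H _ _ ξ s hG hx hξ hsur hs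
    let _ : TopologicalSpace H := ⊥
    have _ : DiscreteTopology H := ⟨rfl⟩
    have _ : IsTopologicalGroup H := inferInstance
    let _ : MeasurableSpace H := borel H
    have _ : BorelSpace H := ⟨rfl⟩
    set ν : Measure H := Measure.haarMeasure ⊤ with hν
    haveI : IsProbabilityMeasure ν := ⟨by rw [hν]; exact Measure.haarMeasure_self⟩
    have h1 := law_of hx
    have h2 := Pool.Agent.Q26.ST.law_frob (ν := ν) ξ hξ hsur s hs
    have hns : ∀ (n m : ℕ) (π : G →* Matrix.unitaryGroup (Fin n) ℂ)
        (ρ : H →* Matrix.unitaryGroup (Fin m) ℂ), IsNontrivialIrreducible π →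
        ¬ Pool.Agent.TH553.ST.Same π μ ρ ν := fun n m π ρ hπ =>
      Pool.Agent.Q26.ST.not_same hG hπ.continuous hπ.irreducible hπ.nontrivial
        continuous_of_discreteTopology (Set.finite_range _)
    refine ⟨fun n m π ρ hπ hρ τ => ⟨Pool.Agent.TH553.ST.pair_lt h1 h2 hπ.continuous
      hπ.irreducible continuous_of_discreteTopology hρ (hns n m π ρ hπ) τ, fun Λ hΛ => ?_⟩,
      fun hall C hC f hf hcl => ?_⟩
    · obtain ⟨m', hm1, hm2⟩ := Pool.Agent.TH553.ST.order_LP hΛ.1 hΛ.2
      have h3 := Pool.Agent.TH553.ST.pair_zero h1 h2 hπ.continuous hπ.irreducible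
        continuous_of_discreteTopology hρ (hns n m π ρ hπ) hm2
      rw [hm1, h3]
      rfl
    · rw [avg_eq]
      have h3 := Pool.Agent.Q26.ST.joint_law h1 h2 (fun n n' π π' a1 a2 a3 b1 b2 b3 =>
        ⟨hns n n' π π' ⟨a1, a2, a3⟩, hall n n' π π' ⟨a1, a2, a3⟩ b2 b3⟩)
        (f := fun p => f p.1 * C.indicator (fun _ => (1 : ℂ)) p.2)
        ((hf.comp continuous_fst).mul
          ((continuous_of_discreteTopology (f := C.indicator fun _ => (1 : ℂ))).comp
            continuous_snd))
        (fun g g' k k' => by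
          simp only
          rw [hcl]
          congr 1
          by_cases hg : g' ∈ C
          · rw [Set.indicator_of_mem hg, Set.indicator_of_mem (hC g' hg k')]
          · have : k' * g' * k'⁻¹ ∉ C := fun h => hg (by
              have := hC _ h k'⁻¹
              simpa [mul_assoc] using this)
            rw [Set.indicator_of_notMem hg, Set.indicator_of_notMem this])
      have h4 : ∫ p : G × H, f p.1 * C.indicator (fun _ => (1 : ℂ)) p.2 ∂(μ.prod ν) =
          (C.ncard : ℂ) / (Nat.card H : ℂ) * ∫ g, f g ∂μ := by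
        have h5 := integral_prod_mul (μ := μ) (ν := ν) f (C.indicator fun _ => (1 : ℂ))
        have h5' := Pool.Agent.Q26.ST.int_fin (ν := ν) (C.indicator fun _ => (1 : ℂ))
        rw [h5, h5']
        have h6 : ∑ᶠ h, C.indicator (fun _ => (1 : ℂ)) h = (C.ncard : ℂ) := by
          classical
          letI : Fintype H := Fintype.ofFinite H
          rw [finsum_eq_sum_of_fintype, Finset.sum_indicator_eq_sum_filter, Finset.sum_const,
            nsmul_eq_mul, mul_one, Set.ncard_eq_toFinset_card']
          congr 2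
          ext h
          simp
        rw [h6]
        ring
      rw [h4] at h3
      exact h3

end Pool.Agent.Results.MP_c481b3_nt.JointFromMeromorphy
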