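import Pool.Agent.Q317.ST.DegSum
import Pool.Agent.Q317.ST.Pad

/-!
# Laws for sums over primes, totally complex fields and real places

`Ω` is an algebraic closure of `ℚ`, number fields are the finite extensions of `ℚ` in `Ω`. The
primes of degree one of a number field `k` are given as ring homomorphisms `φ : 𝓞 k → 𝔽_p` (`p` a
prime); `a p φ` is an arbitrary real function of them, for instance `f(x_𝔭)` for a class function
`f` on the Sato-Tate group of an abelian variety over `k`.
-/

set_option autoImplicit false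

namespace Pool.Agent.Results.MP_c481b3_nt.LawsAndRealPlaces

open scoped Classical
open IntermediateField NumberField Filter Asymptotics Pool.Agent.Q317.ST
  Pool.Agent.Q317.ST.Perm

attribute [-instance] DivisionRing.toRatAlgebra

variable {Ω : Type} [Field Ω] [Algebra ℚ Ω]

/-- `F` is a number field containing `k` that has no embedding in `ℝ` and, for the primes `p ≤ n`,
no embedding in `ℚ_p`. -/
def NoSmallPlaces (k : IntermediateField ℚ Ω) (n : ℕ) (F : IntermediateField ℚ Ω) : Prop :=
  FiniteDimensional ℚ F ∧ k ≤ F ∧ IsEmpty (F →+* ℝ) ∧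
    ∀ (p : ℕ) [Fact p.Prime], p ≤ n → IsEmpty (F →+* ℚ_[p])

/-- The law with main term `c(K) m(x)` and error `o(g(x))` for the sum of `a` over the primes of
degree one of `K`. -/
def Law (k K : IntermediateField ℚ Ω) (a : ∀ p : ℕ, (𝓞 k →+* ZMod p) → ℝ)
    (c : IntermediateField ℚ Ω → ℝ) (m g : ℕ → ℝ) : Prop :=
  (fun x => primeSum k K a x - c K * m x) =o[atTop] g

theorem realOver_unique {k K : IntermediateField ℚ Ω} (hkK : k ≤ K) {v : k →+* ℝ}
    (hv : ∀ w : k →+* ℝ, w = v) : realOver k K v = Nat.card (K →+* ℝ) := by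
  unfold realOver
  refine Nat.card_congr (Equiv.subtypeUnivEquiv fun ρ x hx => ?_)
  exact congrArg (fun t : k →+* ℝ => t ⟨x, hx⟩) (hv (ρ.comp (inclusion hkK).toRingHom))

theorem realOver_empty {k K : IntermediateField ℚ Ω} (h : IsEmpty (K →+* ℝ)) (v : k →+* ℝ) :
    realOver k K v = 0 := by
  unfold realOver
  have : IsEmpty {ρ : K →+* ℝ // ∀ (x : K) (hx : (x : Ω) ∈ k), ρ x = v ⟨x, hx⟩} :=
    ⟨fun ρ => h.false ρ.1⟩
  exact Nat.card_of_isEmpty

/-- the class of the deviation modulo `o(g)` -/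
noncomputable def dev (k : IntermediateField ℚ Ω) (a : ∀ p : ℕ, (𝓞 k →+* ZMod p) → ℝ)
    (c : IntermediateField ℚ Ω → ℝ) (m g : ℕ → ℝ) (K : IntermediateField ℚ Ω) :
    (ℕ → ℝ) ⧸ smallSub g :=
  (smallSub g).mkQ fun x => primeSum k K a x - c K * m x

theorem dev_zero {k : IntermediateField ℚ Ω} {a : ∀ p : ℕ, (𝓞 k →+* ZMod p) → ℝ}
    {c : IntermediateField ℚ Ω → ℝ} {m g : ℕ → ℝ} {K : IntermediateField ℚ Ω} :
    dev k a c m g K = 0 ↔ Law k K a c m g := by
  unfold dev Law
  rw [Submodule.mkQ_apply, Submodule.Quotient.mk_eq_zero]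
  rfl

theorem respects_dev [IsAlgClosure ℚ Ω] {k : IntermediateField ℚ Ω} [FiniteDimensional ℚ k]
    {a : ∀ p : ℕ, (𝓞 k →+* ZMod p) → ℝ} {c : IntermediateField ℚ Ω → ℝ} {m g : ℕ → ℝ}
    (hc : Respects k c) (hg : Tendsto g atTop atTop) : Respects k (dev k a c m g) := by
  intro ι _ n K hK h
  obtain ⟨C, x₀, hC⟩ := sum_relation a ι n K hK h
  have h1 := hc ι n K hK h
  have h2 : ∑ i, n i • dev k a c m g (K i) = (smallSub g).mkQ (fun x =>
      ∑ i, n i * primeSum k (K i) a x) := by
    unfold dev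
    have h3 : (fun x => ∑ i, (n i : ℝ) * primeSum k (K i) a x) =
        ∑ i, n i • (fun x => primeSum k (K i) a x - c (K i) * m x) := by
      funext x
      have h6 : ∀ i, (n i • (fun x => primeSum k (K i) a x - c (K i) * m x)) x =
          n i * primeSum k (K i) a x - n i * (c (K i) * m x) := fun i => by
        rw [Pi.smul_apply, zsmul_eq_mul, mul_sub]
      rw [Finset.sum_apply, Finset.sum_congr rfl fun i _ => h6 i, Finset.sum_sub_distrib]
      have h4 : ∑ i, (n i : ℝ) * (c (K i) * m x) = 0 := by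
        have h5 : ∑ i, (n i : ℝ) * (c (K i) * m x) = (∑ i, n i • c (K i)) * m x := by
          rw [Finset.sum_mul]
          exact Finset.sum_congr rfl fun i _ => by rw [zsmul_eq_mul]; ring
        rw [h5, h1, zero_mul]
      rw [h4, sub_zero]
    rw [h3, map_sum]
    exact Finset.sum_congr rfl fun i _ => by rw [map_zsmul]
  rw [h2, Submodule.mkQ_apply, Submodule.Quotient.mk_eq_zero]
  change (fun x => ∑ i, (n i : ℝ) * primeSum k (K i) a x) =o[atTop] g
  refine IsLittleO.congr' (f₁ := fun _ => C) (g₁ := g) ?_ ?_ (EventuallyEq.refl _ _)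
  · exact isLittleO_const_left.2 (Or.inr (tendsto_norm_atTop_atTop.comp hg))
  · filter_upwards [eventually_ge_atTop x₀] with x hx
    exact (hC x hx).symm

theorem result (Ω : Type) [Field Ω] [Algebra ℚ Ω] [IsAlgClosure ℚ Ω] (k : IntermediateField ℚ Ω)
    [FiniteDimensional ℚ k] (a : ∀ p : ℕ, (𝓞 k →+* ZMod p) → ℝ)
    (c : IntermediateField ℚ Ω → ℝ) (hc : Respects k c) (m g : ℕ → ℝ)
    (hg : Tendsto g atTop atTop) (n : ℕ)
    (h : ∀ F, NoSmallPlaces k n F → Law k F a c m g) :
    (∃ lam : (k →+* ℝ) → ℕ → ℝ, ∀ K : IntermediateField ℚ Ω, FiniteDimensional ℚ K → k ≤ K →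
      (fun x => primeSum k K a x - c K * m x - ∑ᶠ v, (realOver k K v : ℝ) * lam v x)
        =o[atTop] g) ∧
    (∀ K : IntermediateField ℚ Ω, FiniteDimensional ℚ K → k ≤ K → IsEmpty (K →+* ℝ) →
      Law k K a c m g) ∧
    (Nat.card (k →+* ℝ) = 1 → ∀ K : IntermediateField ℚ Ω, FiniteDimensional ℚ K → k ≤ K →
      (fun x => primeSum k K a x - c K * m x -
        Nat.card (K →+* ℝ) * (primeSum k k a x - c k * m x)) =o[atTop] g) ∧
    (∀ S : Set (IntermediateField ℚ Ω),
      (∀ F ∈ S, FiniteDimensional ℚ F ∧ k ≤ F ∧ Law k F a c m g) →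
      (∀ w : (k →+* ℝ) → ℚ, (∀ F ∈ S, ∑ᶠ v, w v * (realOver k F v : ℚ) = 0) → w = 0) →
      ∀ K : IntermediateField ℚ Ω, FiniteDimensional ℚ K → k ≤ K → Law k K a c m g) := by
  let J := {p : Fin (n + 1) // (p : ℕ).Prime}
  have i0 : ∀ j : J, Fact ((j.1 : ℕ).Prime) := fun j => ⟨j.2⟩
  let E : J → Type := fun j => ℚ_[(j.1 : ℕ)]
  have hE : ∀ j : J, CharZero (E j) := fun j => inferInstance
  have hnE : ∀ j : J, StarkNumbers.NonSq (E j) := fun j => exists_nonsq _
  have := finite_real k
  have := Fintype.ofFinite (k →+* ℝ)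
  obtain ⟨lam, hlam⟩ := exists_vec (respects_dev (a := a) (m := m) hc hg) E hE hnE (by
    intro F hF hkF hR hj
    refine dev_zero.2 (h F ⟨hF, hkF, hR, ?_⟩)
    intro p hp hpn
    exact hj ⟨⟨p, by omega⟩, hp.out⟩)
  refine ⟨?_, ?_, ?_, ?_⟩
  · choose L hL using fun v => (smallSub g).mkQ_surjective (lam v)
    refine ⟨L, fun K hK hk => ?_⟩
    have h1 := hlam K hK hk
    rw [finsum_eq_sum_of_fintype] at h1
    have h2 : (smallSub g).mkQ (fun x => primeSum k K a x - c K * m x -
        ∑ᶠ v, (realOver k K v : ℝ) * L v x) = 0 := by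
      have h3 : (fun x => primeSum k K a x - c K * m x - ∑ᶠ v, (realOver k K v : ℝ) * L v x) =
          (fun x => primeSum k K a x - c K * m x) - ∑ v, (realOver k K v : ℚ) • L v := by
        funext x
        rw [Pi.sub_apply, Finset.sum_apply, finsum_eq_sum_of_fintype]
        congr 1
      rw [h3, map_sub, map_sum]
      simp only [map_smul, hL]
      rw [← h1]
      exact sub_self _
    rw [Submodule.mkQ_apply, Submodule.Quotient.mk_eq_zero] at h2
    exact h2
  · intro K hK hk hR
    rw [← dev_zero, hlam K hK hk]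
    simp only [realOver_empty hR, Nat.cast_zero, zero_smul, finsum_zero]
  · intro hcard K hK hk
    obtain ⟨hsub, ⟨v⟩⟩ := Nat.card_eq_one_iff_unique.1 hcard
    have hv : ∀ w : k →+* ℝ, w = v := fun w => Subsingleton.elim w v
    have h1 := hlam K hK hk
    have h2 := hlam k inferInstance le_rfl
    rw [finsum_eq_single _ v fun w hw => absurd (hv w) hw] at h1 h2
    rw [realOver_unique hk hv] at h1
    rw [realOver_unique le_rfl hv, hcard, Nat.cast_one, one_smul] at h2
    rw [← h2] at h1
    have h3 : (smallSub g).mkQ (fun x => primeSum k K a x - c K * m x -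
        Nat.card (K →+* ℝ) * (primeSum k k a x - c k * m x)) = 0 := by
      have h4 : (fun x => primeSum k K a x - c K * m x -
          Nat.card (K →+* ℝ) * (primeSum k k a x - c k * m x)) =
          (fun x => primeSum k K a x - c K * m x) -
            (Nat.card (K →+* ℝ) : ℚ) • (fun x => primeSum k k a x - c k * m x) := by
        funext x
        rw [Pi.sub_apply, Pi.smul_apply, Rat.smul_def, Rat.cast_natCast]
      rw [h4, map_sub, map_smul]
      exact sub_eq_zero.2 h1
    rw [Submodule.mkQ_apply, Submodule.Quotient.mk_eq_zero] at h3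
    exact h3
  · intro S hS hsp K hK hk
    -- the vectors of the fields in `S` span
    have hspan : Submodule.span ℚ {w : (k →+* ℝ) → ℚ | ∃ F ∈ S,
        w = fun v => (realOver k F v : ℚ)} = ⊤ := by
      by_contra hne
      obtain ⟨φ, hφ0, hφ⟩ := Submodule.exists_le_ker_of_lt_top _ (lt_top_iff_ne_top.2 hne)
      have hform : ∀ w : (k →+* ℝ) → ℚ, φ w = ∑ v, φ (Pi.single v 1) * w v := by
        intro w
        have h1 : w = ∑ v, w v • (Pi.single v 1 : (k →+* ℝ) → ℚ) := by
          funext u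
          rw [Finset.sum_apply, Finset.sum_eq_single u]
          · simp
          · intro v _ hv
            simp [Pi.single_eq_of_ne hv.symm]
          · intro h
            exact absurd (Finset.mem_univ u) h
        conv_lhs => rw [h1, map_sum]
        refine Finset.sum_congr rfl fun v _ => ?_
        rw [map_smul, smul_eq_mul, mul_comm]
      have h1 := hsp (fun v => φ (Pi.single v 1)) (fun F hF => by
        rw [finsum_eq_sum_of_fintype, ← hform (fun v => (realOver k F v : ℚ))]
        exact hφ (Submodule.subset_span ⟨F, hF, rfl⟩))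
      apply hφ0
      apply LinearMap.ext
      intro w
      rw [hform w]
      exact Finset.sum_eq_zero fun v _ => by rw [congrFun h1 v]; simp
    let T : ((k →+* ℝ) → ℚ) →ₗ[ℚ] ((ℕ → ℝ) ⧸ smallSub g) :=
      ∑ v, (LinearMap.proj v : ((k →+* ℝ) → ℚ) →ₗ[ℚ] ℚ).smulRight (lam v)
    have hT : ∀ w, T w = ∑ v, w v • lam v := by
      intro w
      simp only [T, LinearMap.sum_apply, LinearMap.smulRight_apply, LinearMap.proj_apply]
    have hT0 : T = 0 := by
      rw [← LinearMap.ker_eq_top, ← top_le_iff, ← hspan, Submodule.span_le]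
      rintro w ⟨F, hF, rfl⟩
      obtain ⟨h1, h2, h3⟩ := hS F hF
      rw [SetLike.mem_coe, LinearMap.mem_ker, hT, ← finsum_eq_sum_of_fintype, ← hlam F h1 h2]
      exact dev_zero.2 h3
    rw [← dev_zero, hlam K hK hk, finsum_eq_sum_of_fintype,
      ← hT (fun v => (realOver k K v : ℚ)), hT0]
    rfl

end Pool.Agent.Results.MP_c481b3_nt.LawsAndRealPlaces
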